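import Pool.Agent.helper47.TFQ.Spec

/-!
# Project tfq, row QDR: the dependence on `lam`
-/

set_option autoImplicit false

namespace Pool.Agent.TFQ

open Polynomial Pool.Agent.GJ Pool.Agent.TK
open Pool.Agent.FJ (VT Om chiO IsFrobO rf rs)
open Pool.Agent.TD (zK)

noncomputable section

theorem QDR_ru_coe {l : ℕ} [Fact l.Prime] (z : Om) (hz : z ^ l = 1) :
    (((ru l z : rootsOfUnity l Om) : Omˣ) : Om) = z := by
  rw [ru, dif_pos hz]
  simp

theorem QDR_ru_mul {l : ℕ} [Fact l.Prime] (z w : Om) (hz : z ^ l = 1) (hw : w ^ l = 1) :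
    ru l (z * w) = ru l z * ru l w := by
  have h1 : (z * w) ^ l = 1 := by rw [mul_pow, hz, hw, one_mul]
  apply Subtype.ext
  apply Units.ext
  rw [QDR_ru_coe _ h1]
  have : ((((ru l z * ru l w : rootsOfUnity l Om)) : Omˣ) : Om) =
      (((ru l z : rootsOfUnity l Om) : Omˣ) : Om) * (((ru l w : rootsOfUnity l Om) : Omˣ) : Om) := rfl
  rw [this, QDR_ru_coe _ hz, QDR_ru_coe _ hw]

/-- the datum with one curve -/
def QDR_dat (l n : ℕ) (μ : Fin (n + 1) → ℕ) (a : Fin (n + 1) → Om) [h : Good Om l μ a] : Dat l where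
  k := 1
  n := fun _ => n
  μ := fun _ => μ
  a := fun _ => a
  good := fun _ => h
  e := fun _ => 1
  r := 0
  m := Fin.elim0
  pos := fun j => j.elim0

theorem QDR_mul (hB : TQ.NB1_stmt) (l n q : ℕ) [Fact l.Prime] [Fact q.Prime] (μ : Fin (n + 1) → ℕ)
    (a : Fin (n + 1) → Om) [Good Om l μ a] [hD : IsDedekindDomain (CR Om l μ a)] :
    (∀ s s' : rootsOfUnity l Om, (zK q (s * s') : Module.End ℚ_[q] (VT q (JC Om l μ a))) = zK q s * zK q s') ∧
      (zK q (1 : rootsOfUnity l Om) : Module.End ℚ_[q] (VT q (JC Om l μ a))) = 1 := by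
  have hinst : ∀ i, IsDedekindDomain (CR Om l ((QDR_dat l n μ a).μ i) ((QDR_dat l n μ a).a i)) := fun _ => hD
  obtain ⟨-, -, -, hmul, hone, -⟩ := hB l q (QDR_dat l n μ a)
  exact ⟨fun s s' => hmul (⟨0, Nat.one_pos⟩ : Fin 1) s s', hone (⟨0, Nat.one_pos⟩ : Fin 1)⟩

theorem QDR (hNB1 : TQ.NB1_stmt) : QDR_stmt := by
  classical
  intro l n _ μ F _ _ _ χ lam lam' hχ hlam hlam'
  have hl : l.Prime := Fact.out
  have hχl : ∀ x : F, x ≠ 0 → χ x ^ l = 1 := by
    intro x hx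
    have h1 : (χ ^ l) x = 1 := by
      rw [hχ]
      exact MulChar.one_apply (isUnit_iff_ne_zero.2 hx)
    rwa [MulChar.pow_apply' _ hl.ne_zero] at h1
  have hprod : ∀ w : Fin (n + 1) → F, (∀ j, w j ≠ 0) → (∏ j, χ (w j) ^ μ j) ^ l = 1 := by
    intro w hw
    rw [← Finset.prod_pow]
    refine Finset.prod_eq_one fun j _ => ?_
    rw [← pow_mul, mul_comm, pow_mul, hχl _ (hw j), one_pow]
  have hr0 : ∀ j, lam' j / lam j ≠ 0 := fun j => div_ne_zero (hlam' j) (hlam j)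
  set E : Om := ∏ j, χ (lam' j / lam j) ^ μ j with hE
  have hEl : E ^ l = 1 := hprod _ hr0
  -- the substitution
  let σ : (Fin (n + 1) → F) ≃ (Fin (n + 1) → F) := Equiv.piCongrRight fun j => Equiv.mulLeft₀ (lam' j / lam j) (hr0 j)
  have hσ : ∀ w j, σ w j = lam' j / lam j * w j := fun _ _ => rfl
  have hlin : ∀ w, ∑ j, lam j * σ w j = ∑ j, lam' j * w j := by
    intro w
    refine Finset.sum_congr rfl fun j _ => ?_
    rw [hσ, ← mul_assoc, mul_div_cancel₀ _ (hlam j)]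
  have hne : ∀ w, (∀ j, σ w j ≠ 0) ↔ ∀ j, w j ≠ 0 := by
    intro w
    refine forall_congr' fun j => ?_
    rw [hσ]
    constructor
    · intro h h0
      exact h (by rw [h0, mul_zero])
    · intro h
      exact mul_ne_zero (hr0 j) h
  have hval : ∀ (w : Fin (n + 1) → F) (m : ℕ), ∏ j, χ (σ w j) ^ (m * μ j) = E ^ m * ∏ j, χ (w j) ^ (m * μ j) := by
    intro w m
    rw [hE, ← Finset.prod_pow, ← Finset.prod_mul_distrib]
    refine Finset.prod_congr rfl fun j _ => ?_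
    rw [hσ, map_mul, mul_pow, ← pow_mul, mul_comm (μ j) m]
  have hval1 : ∀ (w : Fin (n + 1) → F), ∏ j, χ (σ w j) ^ μ j = E * ∏ j, χ (w j) ^ μ j := by
    intro w
    have := hval w 1
    simpa only [one_mul, pow_one] using this
  refine ⟨ru l E, ?_, ?_⟩
  · intro m
    rw [QDR_ru_coe _ hEl, cJQ, cJQ, Finset.mul_sum, ← Equiv.sum_comp σ]
    refine Finset.sum_congr rfl fun w _ => ?_
    rw [hlin w, mul_ite, mul_zero, hval w m]
  · intro q _ a _ _
    obtain ⟨hmul, hone⟩ := QDR_mul hNB1 l n q μ a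
    have hW : cWQ (l := l) μ a q χ lam = zK q (ru l E)⁻¹ * cWQ (l := l) μ a q χ lam' := by
      have hcm : (zK q (ru l E)⁻¹ : Module.End ℚ_[q] (VT q (JC Om l μ a))) * (-1) ^ n =
          (-1) ^ n * zK q (ru l E)⁻¹ :=
        ((Commute.neg_one_right (zK q (ru l E)⁻¹ : Module.End ℚ_[q] (VT q (JC Om l μ a)))).pow_right _).eq
      rw [cWQ, cWQ, ← mul_assoc, hcm, mul_assoc]
      refine congrArg (fun T => (-1) ^ n * T) ?_
      rw [Finset.mul_sum, ← Equiv.sum_comp σ]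
      refine Finset.sum_congr rfl fun w _ => ?_
      by_cases hw : ∑ j, lam' j * w j = 1 ∧ ∀ j, w j ≠ 0
      · have hw' : ∑ j, lam j * σ w j = 1 ∧ ∀ j, σ w j ≠ 0 := ⟨(hlin w).trans hw.1, (hne w).2 hw.2⟩
        rw [if_pos hw, if_pos hw', hval1 w, QDR_ru_mul _ _ hEl (hprod w hw.2), mul_inv]
        exact hmul _ _
      · have hw' : ¬ (∑ j, lam j * σ w j = 1 ∧ ∀ j, σ w j ≠ 0) := fun h =>
          hw ⟨(hlin w).symm.trans h.1, (hne w).1 h.2⟩
        rw [if_neg hw, if_neg hw', mul_zero]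
    refine ⟨hW, ?_⟩
    have hcomm : Commute (zK q (ru l E)⁻¹ : Module.End ℚ_[q] (VT q (JC Om l μ a)))
        (cWQ (l := l) μ a q χ lam') := by
      rw [cWQ]
      refine Commute.mul_right ((Commute.neg_one_right _).pow_right _) ?_
      refine Commute.sum_right _ _ _ fun w _ => ?_
      by_cases hw : ∑ j, lam' j * w j = 1 ∧ ∀ j, w j ≠ 0
      · rw [if_pos hw]
        change zK q (ru l E)⁻¹ * zK q (ru l (∏ j, χ (w j) ^ μ j))⁻¹ =
          zK q (ru l (∏ j, χ (w j) ^ μ j))⁻¹ * zK q (ru l E)⁻¹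
        rw [← hmul, ← hmul, mul_comm]
      · rw [if_neg hw]
        exact Commute.zero_right _
    rw [hW, hcomm.mul_pow]
    have hpow : ∀ (t : rootsOfUnity l Om) (e : ℕ),
        (zK q (t ^ e) : Module.End ℚ_[q] (VT q (JC Om l μ a))) = zK q t ^ e := by
      intro t e
      induction e with
      | zero => rw [pow_zero, pow_zero]; exact hone
      | succ e ih => rw [pow_succ, pow_succ, ← ih]; exact hmul _ _
    have h1 : ((ru l E)⁻¹ : rootsOfUnity l Om) ^ l = 1 := by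
      rw [inv_pow, inv_eq_one]
      apply Subtype.ext
      exact (ru l E).2
    rw [← hpow, h1, hone, one_mul]

end

end Pool.Agent.TFQ
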